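import Pool.Agent.Q32.RB.Final

/-!
# MP_6a9d64_co: maximum number of survivors of bouncing robots on a circle

For every `n ≥ 1` the maximum number of survivors over all configurations of size `n` is
`2 * ((n - 1) / 3)` (integer division), that is `s(n) = 2 ⌊(n - 1) / 3⌋`.

The definitions (`Motion` with its rules, `Alive`, `AliveB`, `Meet`, `survivors`) are in
`Pool/Agent/Q32/RB/Def.lean`; `IsConfig` and `NoTriple` are in `Pool/Agent/Q32/RB/Final.lean`.
The first part of the statement says that every configuration has a motion obeying the rules and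
that its positions are unique, so the number of survivors is a function of the configuration.
-/

namespace Pool.Agent.Results.MP_6a9d64_co.MaxSurvivors

open Q32.RB

theorem result (n : ℕ) (hn : 1 ≤ n) :
    (∀ h d : Fin n → ℝ, IsConfig h d → ∃ M : Motion (Fin n) 1, M.h = h ∧ M.d = d ∧
      ∀ M' : Motion (Fin n) 1, M'.h = h → M'.d = d → ∀ i t, 0 ≤ t → M'.x i t = M.x i t) ∧
    IsGreatest {m : ℕ | ∃ M : Motion (Fin n) 1, IsConfig M.h M.d ∧ M.NoTriple ∧
      M.survivors.ncard = m} (2 * ((n - 1) / 3)) :=
  Q32.RB.final n hn

end Pool.Agent.Results.MP_6a9d64_co.MaxSurvivors
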